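import Mathlib.GroupTheory.RegularWreathProduct
import Mathlib.GroupTheory.NoncommPiCoprod
import Mathlib.GroupTheory.Nilpotent
import Mathlib.Data.ZMod.Basic

/-! Embedding the wreath product of `C_2` by `C_(2^k)` in a group. -/

namespace Pool.Agent.Lib.MP_3b0e0c_al.X

open Subgroup

variable {Q : Type*} [Group Q]

/-- The homomorphism from the cyclic group of order `n` sending the generator to `g`. -/
def cyc (n : ℕ) (g : Q) (h : g ^ n = 1) : Multiplicative (ZMod n) →* Q :=
  AddMonoidHom.toMultiplicativeLeft (ZMod.lift n ⟨zmultiplesHom (Additive Q) (Additive.ofMul g), by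
    change ((n : ℤ) • Additive.ofMul g) = 0
    rw [natCast_zsmul, ← ofMul_pow, h, ofMul_one]⟩)

lemma cyc_int (n : ℕ) (g : Q) (h : g ^ n = 1) (i : ℤ) :
    cyc n g h (Multiplicative.ofAdd (i : ZMod n)) = g ^ i := by
  change Additive.toMul (ZMod.lift n _ (i : ZMod n)) = _
  rw [ZMod.lift_coe]
  change Additive.toMul (i • Additive.ofMul g) = _
  rw [toMul_zsmul, toMul_ofMul]

lemma cyc_one (n : ℕ) (g : Q) (h : g ^ n = 1) : cyc n g h (Multiplicative.ofAdd 1) = g := by
  simpa using cyc_int n g h 1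

lemma cyc_mem (n : ℕ) (g : Q) (h : g ^ n = 1) (d : Multiplicative (ZMod n)) :
    ∃ i : ℤ, cyc n g h d = g ^ i :=
  ⟨(d.toAdd.cast : ℤ), by rw [← cyc_int n g h, ZMod.intCast_zmod_cast, ofAdd_toAdd]⟩

/-- A homomorphism out of a regular wreath product. -/
lemma exists_hom {D R : Type*} [Group D] [Group R] [Fintype R] [DecidableEq R] (δ : D →* Q)
    (ρ : R →* Q) (hc : ∀ (r t : R) (d e : D), Commute (ρ r * δ d * (ρ r)⁻¹) (ρ t * δ e * (ρ t)⁻¹)) :
    ∃ ψ : RegularWreathProduct D R →* Q,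
      (∀ d, ψ ⟨Pi.mulSingle 1 d, 1⟩ = δ d) ∧ ∀ r, ψ ⟨1, r⟩ = ρ r := by
  let ϕ : R → D →* Q := fun r => (MulAut.conj (ρ r)).toMonoidHom.comp δ
  let φ : (R → D) →* Q := MonoidHom.noncommPiCoprod (N := fun _ => D) ϕ fun r t _ d e => hc r t d e
  have hφ : ∀ r d, φ (Pi.mulSingle r d) = ρ r * δ d * (ρ r)⁻¹ := fun r d =>
    MonoidHom.noncommPiCoprod_mulSingle (N := fun _ => D) ϕ r d
  have sh : ∀ (r : R) (f : R → D), φ (fun x => f (r⁻¹ * x)) = ρ r * φ f * (ρ r)⁻¹ := by
    intro r f
    let T : (R → D) →* (R → D) :=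
      { toFun := fun f x => f (r⁻¹ * x), map_one' := rfl, map_mul' := fun _ _ => rfl }
    have : φ.comp T = (MulAut.conj (ρ r)).toMonoidHom.comp φ := by
      refine MonoidHom.pi_ext fun t d => ?_
      have e : T (Pi.mulSingle t d) = Pi.mulSingle (r * t) d := by
        funext x
        change (Pi.mulSingle t d : R → D) (r⁻¹ * x) = _
        simp only [Pi.mulSingle_apply, inv_mul_eq_iff_eq_mul]
      rw [MonoidHom.comp_apply, e, hφ, MonoidHom.comp_apply, hφ, map_mul]
      change _ = ρ r * _ * (ρ r)⁻¹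
      group
    exact DFunLike.congr_fun this f
  refine ⟨MonoidHom.mk' (fun w => φ w.left * ρ w.right) fun a b => ?_, fun d => ?_, fun r => ?_⟩
  · rw [RegularWreathProduct.mul_left, RegularWreathProduct.mul_right, map_mul, map_mul, sh]
    group
  · change φ (Pi.mulSingle 1 d) * ρ 1 = _
    rw [hφ]; simp
  · change φ 1 * ρ r = _
    simp

lemma inf_center {K : Subgroup Q} [K.Normal] [Group.IsNilpotent Q]
    (h : ∀ w ∈ K, w ∈ center Q → w = 1) : K = ⊥ := by
  have key : ∀ n, ∀ w ∈ K, w ∈ Subgroup.upperCentralSeries Q n → w = 1 := by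
    intro n
    induction n with
    | zero => intro w _ hw; simpa using hw
    | succ n ih =>
      intro w hK hw
      refine h w hK (mem_center_iff.2 fun g => ?_)
      have h1 := ih _ (by
        have := K.mul_mem hK (Subgroup.Normal.conj_mem inferInstance _ (K.inv_mem hK) g)
        simpa only [mul_assoc] using this) (by
          simpa only [mul_assoc, commutatorElement_def] using
            Subgroup.mem_upperCentralSeries_succ_iff.1 hw g)
      calc g * w = w * (g * (w⁻¹ * g⁻¹)) * (g * w) := by rw [h1, one_mul]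
        _ = w * g := by group
  obtain ⟨n, hn⟩ := Group.IsNilpotent.nilpotent Q
  exact (eq_bot_iff_forall K).2 fun w hw => key n w hw (hn ▸ mem_top w)

/-- The wreath product of `C_2` by `C_(2^k)`. -/
abbrev Wr (k : ℕ) := RegularWreathProduct (Multiplicative (ZMod 2)) (Multiplicative (ZMod (2 ^ k)))

instance (k : ℕ) : NeZero (2 ^ k) := ⟨by positivity⟩

lemma Wr.isPGroup (k : ℕ) : IsPGroup 2 (Wr k) :=
  IsPGroup.of_card (n := 2 ^ k + k) (by
    rw [RegularWreathProduct.card]
    simp [pow_add])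

/-- The standard generator of the base group times the standard generator of the top group. -/
def Wr.g (k : ℕ) : Wr k := ⟨Pi.mulSingle 1 (Multiplicative.ofAdd 1), Multiplicative.ofAdd 1⟩

lemma Wr.g_pow (k n : ℕ) : Wr.g k ^ n =
    ⟨∏ i ∈ Finset.range n, Pi.mulSingle (Multiplicative.ofAdd (i : ZMod (2 ^ k)))
      (Multiplicative.ofAdd (1 : ZMod 2)), Multiplicative.ofAdd (n : ZMod (2 ^ k))⟩ := by
  induction n with
  | zero => ext <;> simp
  | succ n ih =>
    rw [pow_succ, ih, RegularWreathProduct.mul_def, Finset.prod_range_succ]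
    congr 1
    · congr 1
      funext x
      simp only [Wr.g, Pi.mulSingle_apply, inv_mul_eq_one, eq_comm (a := x)]
    · simp [Wr.g, ofAdd_add]

lemma Wr.g_pow_card (k : ℕ) :
    Wr.g k ^ 2 ^ k = ⟨fun _ => Multiplicative.ofAdd (1 : ZMod 2), 1⟩ := by
  rw [Wr.g_pow]
  congr 1
  · funext r
    rw [Finset.prod_apply, Finset.prod_eq_single r.toAdd.val]
    · simp
    · intro i hi hne
      rw [Pi.mulSingle_eq_of_ne]
      rintro rfl
      exact hne (by rw [toAdd_ofAdd, ZMod.val_natCast, Nat.mod_eq_of_lt (Finset.mem_range.1 hi)])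
    · intro h
      exact absurd (Finset.mem_range.2 (ZMod.val_lt _)) h
  · rw [ZMod.natCast_self]; rfl

lemma Wr.center (k : ℕ) {w : Wr k} (hw : w ∈ center (Wr k)) : w = 1 ∨ w = Wr.g k ^ 2 ^ k := by
  have h1 : w.right = 1 := by
    by_contra hne
    have := congrFun (congrArg RegularWreathProduct.left
      (mem_center_iff.1 hw ⟨Pi.mulSingle 1 (Multiplicative.ofAdd 1), 1⟩)) 1
    simp only [RegularWreathProduct.mul_left, Pi.mul_apply, Pi.mulSingle_eq_same, inv_one, mul_one]
      at this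
    rw [Pi.mulSingle_eq_of_ne (by simpa using hne), mul_one, mul_eq_right] at this
    exact absurd this (by decide)
  have h2 : ∀ r, w.left r = w.left 1 := by
    intro r
    have := congrFun (congrArg RegularWreathProduct.left (mem_center_iff.1 hw ⟨1, r⟩)) r
    simpa [RegularWreathProduct.mul_left] using this.symm
  have h3 : ∀ d : Multiplicative (ZMod 2), d = 1 ∨ d = Multiplicative.ofAdd 1 := by decide
  rcases h3 (w.left 1) with h | h
  · exact Or.inl (RegularWreathProduct.ext (funext fun r => (h2 r).trans h) h1)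
  · rw [Wr.g_pow_card]
    exact Or.inr (RegularWreathProduct.ext (funext fun r => (h2 r).trans h) h1)

/-- If all conjugates of the involution `u` commute, `x ^ (2^k) = 1` and `(u x) ^ (2^k) ≠ 1`, then
the wreath product embeds. -/
theorem exists_injective (k : ℕ) {u x : Q} (hu : u ^ 2 = 1)
    (hc : ∀ g h : Q, Commute (g * u * g⁻¹) (h * u * h⁻¹)) (hx : x ^ 2 ^ k = 1)
    (hux : (u * x) ^ 2 ^ k ≠ 1) : ∃ ψ : Wr k →* Q, Function.Injective ψ := by
  obtain ⟨ψ, h1, h2⟩ := exists_hom (cyc 2 u hu) (cyc (2 ^ k) x hx) fun r t d e => by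
    obtain ⟨i, hi⟩ := cyc_mem 2 u hu d
    obtain ⟨j, hj⟩ := cyc_mem 2 u hu e
    rw [hi, hj, ← conj_zpow, ← conj_zpow]
    exact (hc _ _).zpow_zpow i j
  refine ⟨ψ, (MonoidHom.ker_eq_bot_iff ψ).1 ?_⟩
  have : Fact (Nat.Prime 2) := ⟨Nat.prime_two⟩
  have := (Wr.isPGroup k).isNilpotent
  refine inf_center fun w hw hz => (Wr.center k hz).resolve_right ?_
  rintro rfl
  refine hux ?_
  have e : Wr.g k = ⟨Pi.mulSingle 1 (Multiplicative.ofAdd 1), 1⟩ * ⟨1, Multiplicative.ofAdd 1⟩ := by
    rw [RegularWreathProduct.mul_def]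
    exact RegularWreathProduct.ext (mul_one _).symm (one_mul _).symm
  have := MonoidHom.mem_ker.1 hw
  rwa [map_pow, e, map_mul, h1, h2, cyc_one, cyc_one] at this

end Pool.Agent.Lib.MP_3b0e0c_al.X
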