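import Pool.Agent.Lib.MP_3b0e0c_al.X.Emb
import Pool.Agent.Lib.MP_3b0e0c_al.LF

/-! Groups without a section `C_2 wr C_(2^k)` in the subgroups generated by two conjugates. -/

namespace Pool.Agent.Lib.MP_3b0e0c_al.X

open Subgroup

universe u

/-- No subgroup of `P` maps onto the wreath product. -/
def NoW (k : ℕ) (P : Type u) [Group P] : Prop :=
  ∀ (H : Subgroup P) (f : H →* Wr k), ¬ Function.Surjective f

section

variable {P Q : Type u} [Group P] [Group Q] {k : ℕ}

lemma NoW.of_surjective (h : NoW k P) (π : P →* Q) (hπ : Function.Surjective π) : NoW k Q :=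
  fun H f hf => h (H.comap π) (f.comp (π.subgroupComap H))
    (hf.comp (π.subgroupComap_surjective_of_surjective H hπ))

lemma NoW.subgroup (h : NoW k P) (C : Subgroup P) : NoW k C :=
  fun H f hf => h (H.map C.subtype)
    (f.comp (H.equivMapOfInjective C.subtype C.subtype_injective).symm.toMonoidHom)
    (hf.comp (MulEquiv.surjective _))

lemma NoW.pow_eq_one (h : NoW k P) {u x : P} (hu : u ^ 2 = 1)
    (hc : ∀ g h : P, Commute (g * u * g⁻¹) (h * u * h⁻¹)) (hx : x ^ 2 ^ k = 1) :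
    (u * x) ^ 2 ^ k = 1 := by
  by_contra hux
  obtain ⟨ψ, hψ⟩ := exists_injective k hu hc hx hux
  exact h ψ.range (MonoidHom.ofInjective hψ).symm.toMonoidHom (MulEquiv.surjective _)

lemma NoW.pow_eq (h : NoW k P) {u x : P} (hu : u ^ 2 = 1)
    (hc : ∀ g h : P, Commute (g * u * g⁻¹) (h * u * h⁻¹)) (hx : (x ^ 2 ^ k) ^ 2 = 1)
    (hs : Commute u (x ^ 2 ^ k)) : (u * x) ^ 2 ^ k = x ^ 2 ^ k := by
  by_cases h1 : (u * x) ^ 2 ^ k = 1
  · rw [h1, ← h.pow_eq_one hu hc h1, ← mul_assoc, ← pow_two, hu, one_mul]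
  let C : Subgroup P := centralizer {x ^ 2 ^ k}
  have mem : ∀ {y : P}, Commute y (x ^ 2 ^ k) → y ∈ C := fun hy =>
    mem_centralizer_singleton_iff.2 hy.eq
  let u' : C := ⟨u, mem hs⟩
  let x' : C := ⟨x, mem (Commute.self_pow _ _)⟩
  have cen : ∀ g : C, g * x' ^ 2 ^ k * g⁻¹ = x' ^ 2 ^ k := fun g => Subtype.ext (by
    change (g : P) * x ^ 2 ^ k * (g : P)⁻¹ = x ^ 2 ^ k
    rw [mem_centralizer_singleton_iff.1 g.2, mul_inv_cancel_right])
  have : (zpowers (x' ^ 2 ^ k)).Normal := ⟨by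
    rintro _ ⟨i, rfl⟩ g
    exact ⟨i, by simp only [← conj_zpow, cen]⟩⟩
  let π := QuotientGroup.mk' (zpowers (x' ^ 2 ^ k))
  have hπ : Function.Surjective π := QuotientGroup.mk'_surjective _
  have h2 := ((h.subgroup C).of_surjective π hπ).pow_eq_one (u := π u') (x := π x')
    (by rw [← map_pow, show u' ^ 2 = 1 from Subtype.ext hu, map_one])
    (fun a b => by
      obtain ⟨a, rfl⟩ := hπ a
      obtain ⟨b, rfl⟩ := hπ b
      simp only [← map_inv, ← map_mul]
      exact Commute.map (show Commute (a * u' * a⁻¹) (b * u' * b⁻¹) from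
        Subtype.ext (hc a b).eq) π)
    (by rw [← map_pow]; exact (QuotientGroup.eq_one_iff _).2 (mem_zpowers _))
  rw [← map_mul, ← map_pow] at h2
  obtain ⟨i, hi⟩ := (QuotientGroup.eq_one_iff _).1 h2
  have hi' : (x ^ 2 ^ k) ^ i = (u * x) ^ 2 ^ k := congrArg Subtype.val hi
  have hx' : (x ^ 2 ^ k) ^ (2 : ℤ) = 1 := by exact_mod_cast hx
  obtain ⟨j, rfl | rfl⟩ := Int.even_or_odd' i
  · rw [zpow_mul, hx', one_zpow] at hi'
    exact absurd hi'.symm h1
  · rw [zpow_add, zpow_mul, hx', one_zpow, one_mul, zpow_one] at hi'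
    exact hi'.symm

end

/-- In a finite 2-group without the section, involutions that are `2^k`-th powers commute. -/
theorem commute_of_finite (k n : ℕ) : ∀ (P : Type u) [Group P] [Finite P], Nat.card P = n →
    IsPGroup 2 P → NoW k P → ∀ x y : P, (x ^ 2 ^ k) ^ 2 = 1 → (y ^ 2 ^ k) ^ 2 = 1 →
      Commute (x ^ 2 ^ k) (y ^ 2 ^ k) := by
  induction n using Nat.strong_induction_on with
  | _ n ih =>
  intro P _ _ hn hp h x y hx hy
  rcases subsingleton_or_nontrivial P with _ | _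
  · exact Subsingleton.elim _ _
  have : Fact (Nat.Prime 2) := ⟨Nat.prime_two⟩
  let π := QuotientGroup.mk' (center P)
  have hπ : Function.Surjective π := QuotientGroup.mk'_surjective _
  have hlt : Nat.card (P ⧸ center P) < n := by
    have h1 : 1 < Nat.card (center P) := (one_lt_card_iff_ne_bot _).2 hp.bot_lt_center.ne'
    rw [← hn, card_eq_card_quotient_mul_card_subgroup (center P)]
    exact lt_mul_of_one_lt_right Nat.card_pos h1
  have hq := h.of_surjective π hπ
  have key := ih _ hlt (P ⧸ center P) rfl (hp.to_quotient _) hq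
  have hx' : (π x ^ 2 ^ k) ^ 2 = 1 := by rw [← map_pow, ← map_pow, hx, map_one]
  have hy' : (π y ^ 2 ^ k) ^ 2 = 1 := by rw [← map_pow, ← map_pow, hy, map_one]
  have cj : ∀ g : P ⧸ center P, ((g * π y * g⁻¹) ^ 2 ^ k) ^ 2 = 1 := fun g => by
    rw [conj_pow, conj_pow, hy', mul_one, mul_inv_cancel]
  have h1 := hq.pow_eq hy' (fun a b => by simpa only [conj_pow] using key _ _ (cj a) (cj b)) hx'
    (key _ _ hy' hx')
  rw [← map_pow π y, ← map_mul, ← map_pow, ← map_pow] at h1
  generalize y ^ 2 ^ k = u at h1 ⊢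
  have h2 : (x ^ 2 ^ k)⁻¹ * (u * x) ^ 2 ^ k ∈ center P := QuotientGroup.eq.1 h1.symm
  have h3 : Commute (u * x) ((x ^ 2 ^ k)⁻¹ * (u * x) ^ 2 ^ k) := mem_center_iff.1 h2 _
  have h4 := (h3.mul_right (Commute.self_pow (u * x) (2 ^ k)).inv_right).inv_right
  rw [mul_inv_cancel_right, inv_inv] at h4
  have h5 := h4.mul_left (Commute.self_pow x (2 ^ k)).inv_left
  rw [mul_inv_cancel_right] at h5
  exact h5.symm

variable {G : Type u} [Group G]

theorem pow_mem_rad (k : ℕ) (h2 : IsPGroup 2 G)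
    (hb : ∀ x g : G, (closure {x, g * x * g⁻¹} : Set G).Finite)
    (h : ∀ x g : G, NoW k (closure ({x, g * x * g⁻¹} : Set G))) (y : G) : y ^ 2 ^ k ∈ rad G := by
  let π := QuotientGroup.mk' (rad G)
  have hπ : Function.Surjective π := QuotientGroup.mk'_surjective _
  have hq := h2.to_quotient (rad G)
  have hk : LF π.ker := by rw [QuotientGroup.ker_mk']; exact LF_rad
  have triv : ∀ x : G ⧸ rad G, (x ^ 2 ^ k) ^ 2 = 1 → x ^ 2 ^ k = 1 := by
    intro x hx
    have hz : ∀ g, Commute (x ^ 2 ^ k) (g * x ^ 2 ^ k * g⁻¹) := by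
      intro g
      obtain ⟨x, rfl⟩ := hπ x
      obtain ⟨g, rfl⟩ := hπ g
      let H : Subgroup G := closure {x, g * x * g⁻¹}
      have : Finite H := hb x g
      have : Finite (H.map π) := Finite.of_surjective _ (π.subgroupMap_surjective H)
      let a : H.map π := ⟨π x, mem_map_of_mem π (subset_closure (by simp))⟩
      let b : H.map π := ⟨π (g * x * g⁻¹), mem_map_of_mem π (subset_closure (by simp))⟩
      have := commute_of_finite k _ (H.map π) rfl (hq.to_subgroup _)
        ((h x g).of_surjective _ (π.subgroupMap_surjective H)) a b (Subtype.ext hx)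
        (Subtype.ext (by
          change (π (g * x * g⁻¹) ^ 2 ^ k) ^ 2 = 1
          rw [map_mul, map_mul, map_inv, conj_pow, conj_pow, hx, mul_one, mul_inv_cancel]))
      have h1 : Commute (π x ^ 2 ^ k) (π (g * x * g⁻¹) ^ 2 ^ k) := congrArg Subtype.val this.eq
      rwa [map_mul, map_mul, map_inv, conj_pow] at h1
    have h1 := LF.comap _ hk (LF_normalClosure (fun u => (hq u).elim fun k hk =>
      isOfFinOrder_iff_pow_eq_one.2 ⟨_, by positivity, hk⟩) hz)
    obtain ⟨z, hz⟩ := hπ (x ^ 2 ^ k)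
    rw [← hz] at h1 ⊢
    exact (QuotientGroup.eq_one_iff z).2 ⟨_, inferInstance, h1, subset_normalClosure rfl⟩
  obtain ⟨m, hm⟩ := hq (π y)
  have : ∀ m, (π y ^ 2 ^ m) ^ 2 ^ k = 1 → π y ^ 2 ^ k = 1 := by
    intro m
    induction m with
    | zero => simp
    | succ m ih =>
      intro e
      exact ih (triv _ (by rw [← e]; simp only [← pow_mul]; congr 1; ring))
  exact (QuotientGroup.eq_one_iff _).1 (this m (by rw [hm, one_pow]))

/-- The `2^k`-th powers generate a locally finite subgroup. -/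
theorem LF_powers (k : ℕ) (h2 : IsPGroup 2 G)
    (hb : ∀ x g : G, (closure {x, g * x * g⁻¹} : Set G).Finite)
    (h : ∀ x g : G, NoW k (closure ({x, g * x * g⁻¹} : Set G))) :
    LF (closure (Set.range fun y : G => y ^ 2 ^ k)) :=
  LF_rad.mono ((closure_le _).2 (by rintro _ ⟨y, rfl⟩; exact pow_mem_rad k h2 hb h y))

/-- The case `k = 2`, with Sanov's theorem. -/
theorem LF_of_NoW_two (h2 : IsPGroup 2 G)
    (hb : ∀ x g : G, (closure {x, g * x * g⁻¹} : Set G).Finite)
    (h : ∀ x g : G, NoW 2 (closure ({x, g * x * g⁻¹} : Set G))) : LF (⊤ : Subgroup G) := by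
  have hk : LF (QuotientGroup.mk' (rad G)).ker := by rw [QuotientGroup.ker_mk']; exact LF_rad
  have := LF.comap _ hk (sanov fun u => by
    obtain ⟨y, rfl⟩ := QuotientGroup.mk'_surjective _ u
    exact (QuotientGroup.eq_one_iff _).2 (pow_mem_rad 2 h2 hb h y))
  rwa [comap_top] at this

lemma NoW.of_le {k : ℕ} {K : Subgroup G}
    (h : ∀ H : Subgroup G, H ≤ K → ∀ f : H →* Wr k, ¬ Function.Surjective f) : NoW k K :=
  fun H f hf => h (H.map K.subtype) (map_subtype_le H)
    (f.comp (H.equivMapOfInjective K.subtype K.subtype_injective).symm.toMonoidHom)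
    (hf.comp (MulEquiv.surjective _))

end Pool.Agent.Lib.MP_3b0e0c_al.X
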